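import Pool.Agent.Helper20.FIVE.Model

/-!
# Selling parameters of the square matrix, and the width of a simplex cut by one plane
-/

set_option autoImplicit false

namespace Pool.Agent.Helper20.FIVE

open Matrix
open Pool.Agent.Helper12.LW (toR)

/-- the Selling parameters (divided by four) -/
noncomputable def sel (g : Fin 4 → Fin 3 → ℝ) (f : Fin 4 → Fin 3 → ℤ) (l m : Fin 4) : ℝ :=
  -(∑ j, (g j ⬝ᵥ toR (f l)) * (g j ⬝ᵥ toR (f m))) / 4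

theorem toR_sum3 {f : Fin 4 → Fin 3 → ℤ} (hf : ∑ l, f l = 0) (m : Fin 3 → ℝ) :
    m ⬝ᵥ toR (f 3) = -(m ⬝ᵥ toR (f 0) + m ⬝ᵥ toR (f 1) + m ⬝ᵥ toR (f 2)) := by
  have h1 : toR (f 3) = -(toR (f 0) + toR (f 1) + toR (f 2)) := by
    funext i
    have h2 := congrFun hf i
    rw [Finset.sum_apply, Fin.sum_univ_four] at h2
    simp only [Pi.zero_apply] at h2
    have h3 : f 3 i = -(f 0 i + f 1 i + f 2 i) := by omega
    simp only [toR, Pi.neg_apply, Pi.add_apply, h3]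
    push_cast
    ring
  rw [h1, dotProduct_neg, dotProduct_add, dotProduct_add]

/-- **The form in Selling parameters.** -/
theorem FF_selling {g : Fin 4 → Fin 3 → ℝ} (hg : ∑ j, g j = 0) {f : Fin 4 → Fin 3 → ℤ} (hf : ∑ l, f l = 0) :
    (FF g f)ᵀ * FF g f =
      !![sel g f 0 1 + sel g f 0 2 + sel g f 0 3, -sel g f 0 1, -sel g f 0 2;
        -sel g f 0 1, sel g f 0 1 + sel g f 1 2 + sel g f 1 3, -sel g f 1 2;
        -sel g f 0 2, -sel g f 1 2, sel g f 0 2 + sel g f 1 2 + sel g f 2 3] := by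
  have h3 := toR_sum3 hf
  ext l m
  have h := FF_gram hg f l m
  have h4 : ((FF g f)ᵀ * FF g f) l m = (∑ k, Vv g f k l * Vv g f k m) / 4 := by linarith
  rw [h4]
  unfold Vv sel
  fin_cases l <;> fin_cases m <;> simp [Fin.sum_univ_four, h3] <;> ring

theorem sel_comm (g : Fin 4 → Fin 3 → ℝ) (f : Fin 4 → Fin 3 → ℤ) (l m : Fin 4) :
    sel g f l m = sel g f m l := by
  unfold sel
  congr 2
  exact Finset.sum_congr rfl fun j _ => mul_comm _ _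

theorem sel_nonneg {g : Fin 4 → Fin 3 → ℝ} {f : Fin 4 → Fin 3 → ℤ}
    (h : ∀ l m, l ≠ m → ∑ j, (g j ⬝ᵥ toR (f l)) * (g j ⬝ᵥ toR (f m)) ≤ 0) {l m : Fin 4} (hlm : l ≠ m) :
    0 ≤ sel g f l m := by
  unfold sel
  have := h l m hlm
  linarith

/-- an average is at most the maximum -/
theorem exists_ge_avg (a x : Fin 4 → ℝ) (hx : ∀ j, 0 ≤ x j) (hs : ∑ j, x j = 1) :
    ∃ i, ∑ j, a j * x j ≤ a i := by
  obtain ⟨i, hi⟩ := Finite.exists_max a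
  refine ⟨i, ?_⟩
  have h1 : ∑ j, a j * x j ≤ ∑ j, a i * x j :=
    Finset.sum_le_sum fun j _ => mul_le_mul_of_nonneg_right (hi j) (hx j)
  rw [← Finset.mul_sum, hs, mul_one] at h1
  exact h1

theorem exists_le_avg (a x : Fin 4 → ℝ) (hx : ∀ j, 0 ≤ x j) (hs : ∑ j, x j = 1) :
    ∃ i, a i ≤ ∑ j, a j * x j := by
  obtain ⟨i, hi⟩ := exists_ge_avg (fun j => -a j) x hx hs
  refine ⟨i, ?_⟩
  simp only [neg_mul, Finset.sum_neg_distrib] at hi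
  linarith

/-- **Width of a simplex cut by a plane**, in barycentric coordinates, with multipliers `t`, `t'` -/
theorem width_cut (Y c : Fin 4 → ℝ) (H t t' W : ℝ) (ht : 0 ≤ t) (ht' : 0 ≤ t') (x y : Fin 4 → ℝ)
    (hx : ∀ j, 0 ≤ x j) (hxs : ∑ j, x j = 1) (hxc : ∑ j, c j * x j ≤ H)
    (hy : ∀ j, 0 ≤ y j) (hys : ∑ j, y j = 1) (hyc : ∑ j, c j * y j ≤ H)
    (h : W ≤ ∑ j, Y j * x j - ∑ j, Y j * y j) :
    ∃ i j, W + t * c i + t' * c j ≤ Y i - Y j + (t + t') * H := by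
  obtain ⟨i, hi⟩ := exists_ge_avg (fun j => Y j - t * c j) x hx hxs
  obtain ⟨j, hj⟩ := exists_le_avg (fun j => Y j + t' * c j) y hy hys
  refine ⟨i, j, ?_⟩
  have e1 : ∑ j, (Y j - t * c j) * x j = ∑ j, Y j * x j - t * ∑ j, c j * x j := by
    rw [Finset.mul_sum, ← Finset.sum_sub_distrib]
    exact Finset.sum_congr rfl fun j _ => by ring
  have e2 : ∑ j, (Y j + t' * c j) * y j = ∑ j, Y j * y j + t' * ∑ j, c j * y j := by
    rw [Finset.mul_sum, ← Finset.sum_add_distrib]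
    exact Finset.sum_congr rfl fun j _ => by ring
  have hi2 : ∑ j, Y j * x j - t * ∑ j, c j * x j ≤ Y i - t * c i := e1 ▸ hi
  have hj2 : Y j + t' * c j ≤ ∑ j, Y j * y j + t' * ∑ j, c j * y j := e2 ▸ hj
  have h1 := mul_le_mul_of_nonneg_left hxc ht
  have h2 := mul_le_mul_of_nonneg_left hyc ht'
  linarith

/-- the coordinates of a point in the basis -/
theorem exists_coord {f u : Fin 4 → Fin 3 → ℤ}
    (hu : ∀ x : Fin 3 → ℝ, x = ∑ l, (toR (u l) ⬝ᵥ x) • toR (f l)) (hf : ∑ l, f l = 0) (x : Fin 3 → ℝ) :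
    ∃ y : Fin 3 → ℝ, pt f y = x := by
  refine ⟨fun l => toR (u l.castSucc) ⬝ᵥ x - toR (u 3) ⬝ᵥ x, ?_⟩
  have h3 : toR (f 3) = -(toR (f 0) + toR (f 1) + toR (f 2)) := by
    funext i
    have h2 := congrFun hf i
    rw [Finset.sum_apply, Fin.sum_univ_four] at h2
    simp only [Pi.zero_apply] at h2
    have h3 : f 3 i = -(f 0 i + f 1 i + f 2 i) := by omega
    simp only [toR, Pi.neg_apply, Pi.add_apply, h3]
    push_cast
    ring
  have h4 := hu x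
  rw [Fin.sum_univ_four, h3] at h4
  conv_rhs => rw [h4]
  unfold pt
  rw [Fin.sum_univ_three]
  funext i
  simp only [Pi.add_apply, Pi.smul_apply, Pi.neg_apply, smul_eq_mul]
  show (toR (u 0) ⬝ᵥ x - toR (u 3) ⬝ᵥ x) * toR (f 0) i + (toR (u 1) ⬝ᵥ x - toR (u 3) ⬝ᵥ x) * toR (f 1) i +
    (toR (u 2) ⬝ᵥ x - toR (u 3) ⬝ᵥ x) * toR (f 2) i = _
  ring

/-- **Width facts.**  `K` is in the simplex `g j · x ≤ b j` and behind the plane `∑ c j L j = H`; `r` is a direction in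
which `K` is wide, `w` the values of `r` on the basis. -/
theorem fact_width {K : Set (Fin 3 → ℝ)} {g : Fin 4 → Fin 3 → ℝ} {b c : Fin 4 → ℝ} {H W : ℝ}
    {f : Fin 4 → Fin 3 → ℤ} (hg : ∑ j, g j = 0) (hb : ∑ j, b j = 1)
    (hpt : ∀ x : Fin 3 → ℝ, ∃ y : Fin 3 → ℝ, pt f y = x)
    {Z : Matrix (Fin 3) (Fin 3) ℝ} (hZ : ((FF g f)ᵀ * FF g f) * Z = 1)
    (hK : ∀ x ∈ K, ∀ j, g j ⬝ᵥ x ≤ b j) (hc : ∀ x ∈ K, ∑ j, c j * (b j - g j ⬝ᵥ x) ≤ H) (r : Fin 3 → ℤ)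
    (hr : ∃ x ∈ K, ∃ x' ∈ K, W < toR r ⬝ᵥ (x - x')) {t t' : ℝ} (ht : 0 ≤ t) (ht' : 0 ≤ t') :
    ∃ i j : Fin 4, 4 * (W + t * c i + t' * c j) ≤
      trace ((FF g f * Z)ᵀ * vecMulVec (gq j - gq i) (fun l => toR r ⬝ᵥ toR (f l.castSucc))) +
        4 * ((t + t') * H) := by
  obtain ⟨x, hx, x', hx', hlt⟩ := hr
  obtain ⟨Y, hY⟩ : ∃ Y : Fin 4 → ℝ, Y = fun j =>
      -trace ((FF g f * Z)ᵀ * vecMulVec (gq j) (fun l => toR r ⬝ᵥ toR (f l.castSucc))) / 4 := ⟨_, rfl⟩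
  have hsum : ∀ z : Fin 3 → ℝ, ∑ j, (b j - g j ⬝ᵥ z) = 1 := fun z => by
    rw [Finset.sum_sub_distrib, ← sum_dotProduct, hg, zero_dotProduct, sub_zero, hb]
  obtain ⟨y, hy⟩ := hpt (x - x')
  have h1 := fact_w hg f Z hZ (toR r) y
  rw [hy] at h1
  have h2 : toR r ⬝ᵥ (x - x') = ∑ j, Y j * (b j - g j ⬝ᵥ x) - ∑ j, Y j * (b j - g j ⬝ᵥ x') := by
    have h3 : ∑ j, Y j * (b j - g j ⬝ᵥ x) - ∑ j, Y j * (b j - g j ⬝ᵥ x') =
        (∑ j, (g j ⬝ᵥ (x - x')) *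
          trace ((FF g f * Z)ᵀ * vecMulVec (gq j) (fun l => toR r ⬝ᵥ toR (f l.castSucc)))) / 4 := by
      rw [← Finset.sum_sub_distrib, Finset.sum_div]
      refine Finset.sum_congr rfl fun j _ => ?_
      rw [hY, dotProduct_sub]
      simp only
      ring
    rw [h3, ← h1]
    ring
  obtain ⟨i, j, hij⟩ := width_cut Y c H t t' W ht ht' (fun j => b j - g j ⬝ᵥ x) (fun j => b j - g j ⬝ᵥ x')
    (fun j => sub_nonneg.2 (hK x hx j)) (hsum x) (hc x hx) (fun j => sub_nonneg.2 (hK x' hx' j)) (hsum x')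
    (hc x' hx') (by rw [← h2]; exact hlt.le)
  refine ⟨i, j, ?_⟩
  have h5 : trace ((FF g f * Z)ᵀ * vecMulVec (gq j - gq i) (fun l => toR r ⬝ᵥ toR (f l.castSucc))) =
      4 * (Y i - Y j) := by
    rw [hY, Matrix.sub_vecMulVec, Matrix.mul_sub, Matrix.trace_sub]
    ring
  rw [h5]
  linarith

end Pool.Agent.Helper20.FIVE
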