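import Pool.Agent.Helper20.FIVE.Shrink

/-!
# Five vectors in general position: a positive relation between four of them
-/

set_option autoImplicit false

namespace Pool.Agent.Helper20.FIVE

open Matrix
open Pool.Agent.Helper22.Sym (toR)

/-- any three of the five vectors are independent -/
def Gen (n : Fin 5 → Fin 3 → ℝ) : Prop :=
  ∀ i j k, i ≠ j → j ≠ k → i ≠ k → (Matrix.of ![n i, n j, n k]).det ≠ 0

theorem lin3 (u v w : Fin 3 → ℝ) (hdet : (Matrix.of ![u, v, w]).det ≠ 0) (a : Fin 3 → ℝ)
    (h : a 0 • u + a 1 • v + a 2 • w = 0) : a = 0 := by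
  refine Matrix.eq_zero_of_vecMul_eq_zero hdet ?_
  funext i
  have h1 := congrFun h i
  simp only [Pi.add_apply, Pi.smul_apply, smul_eq_mul, Pi.zero_apply] at h1
  simp only [Matrix.vecMul, dotProduct, Fin.sum_univ_three, Matrix.of_apply, Matrix.cons_val_zero,
    Matrix.cons_val_one, Matrix.cons_val, Pi.zero_apply]
  exact h1

theorem others : ∀ p q : Fin 5, p ≠ q → ∃ i j k : Fin 5, i ≠ j ∧ j ≠ k ∧ i ≠ k ∧ i ≠ p ∧ i ≠ q ∧ j ≠ p ∧
    j ≠ q ∧ k ≠ p ∧ k ≠ q ∧ ∀ x : Fin 5, x = p ∨ x = q ∨ x = i ∨ x = j ∨ x = k := by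
  decide

/-- a relation with two zero coefficients is zero -/
theorem rel_zero {n : Fin 5 → Fin 3 → ℝ} (hn : Gen n) (a : Fin 5 → ℝ) (h : ∑ i, a i • n i = 0)
    (p q : Fin 5) (hpq : p ≠ q) (hp : a p = 0) (hq : a q = 0) : a = 0 := by
  classical
  obtain ⟨i, j, k, hij, hjk, hik, hip, hiq, hjp, hjq, hkp, hkq, hall⟩ := others p q hpq
  have huniv : (Finset.univ : Finset (Fin 5)) = {p, q, i, j, k} := by
    ext x
    simpa using hall x
  rw [huniv, Finset.sum_insert (by simp [hpq, hip.symm, hjp.symm, hkp.symm]),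
    Finset.sum_insert (by simp [hiq.symm, hjq.symm, hkq.symm]), Finset.sum_insert (by simp [hij, hik]),
    Finset.sum_insert (by simp [hjk]), Finset.sum_singleton, hp, hq, zero_smul, zero_smul, zero_add,
    zero_add] at h
  have h1 := lin3 (n i) (n j) (n k) (hn i j k hij hjk hik) ![a i, a j, a k] (by
    simp only [Matrix.cons_val_zero, Matrix.cons_val_one, Matrix.cons_val]
    rw [add_assoc]
    exact h)
  have e0 := congrFun h1 0
  have e1 := congrFun h1 1
  have e2 := congrFun h1 2
  simp only [Matrix.cons_val_zero, Matrix.cons_val_one, Matrix.cons_val, Pi.zero_apply] at e0 e1 e2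
  funext x
  rcases hall x with rfl | rfl | rfl | rfl | rfl <;> simp_all

/-- bounded polytopes: the normals span positively -/
theorem exists_pos {n : Fin 5 → Fin 3 → ℝ} {c : Fin 3 → ℝ} {β : Fin 5 → ℝ} (hβ : ∀ i, 0 < β i)
    (hcomp : IsCompact (Pol n c β)) (y : Fin 3 → ℝ) (hy : y ≠ 0) : ∃ i, 0 < n i ⬝ᵥ y := by
  by_contra hcon
  push Not at hcon
  obtain ⟨R0, hR0⟩ := hcomp.isBounded.exists_norm_le
  have hy0 : 0 < ‖y‖ := norm_pos_iff.2 hy
  set t : ℝ := (|R0| + ‖c‖ + 1) / ‖y‖ with ht
  have ht0 : 0 ≤ t := by positivity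
  have hmem : c + t • y ∈ Pol n c β := by
    intro i
    rw [add_sub_cancel_left, dotProduct_smul, smul_eq_mul]
    have := mul_nonneg ht0 (neg_nonneg.2 (hcon i))
    have := hβ i
    linarith
  have h1 := hR0 _ hmem
  have h2 : ‖t • y‖ = |R0| + ‖c‖ + 1 := by
    rw [norm_smul, Real.norm_eq_abs, abs_of_nonneg ht0, ht]
    field_simp
  have h3 : ‖t • y‖ ≤ ‖c + t • y‖ + ‖c‖ := by
    have := norm_sub_le (c + t • y) c
    rwa [add_sub_cancel_left] at this
  have h4 := le_abs_self R0
  linarith

/-- **A positive relation between four of the five normals.** -/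
theorem exists_circ {n : Fin 5 → Fin 3 → ℝ} {c : Fin 3 → ℝ} {β : Fin 5 → ℝ} (hn : Gen n)
    (hβ : ∀ i, 0 < β i) (hcomp : IsCompact (Pol n c β)) :
    ∃ (d : Fin 5) (l : Fin 4 → ℝ), (∀ k, 0 < l k) ∧ ∑ k, l k • n (d.succAbove k) = 0 := by
  classical
  have h0 : (0 : Fin 3 → ℝ) ∈ convexHull ℝ (Set.range n) := by
    by_contra hcon
    obtain ⟨F, u, hu, hF⟩ := geometric_hahn_banach_point_closed (convex_convexHull ℝ (Set.range n))
      ((Set.finite_range n).isClosed_convexHull ℝ) hcon
    rw [map_zero] at hu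
    have hrep : ∀ x : Fin 3 → ℝ, F x = ∑ a, x a * F (Pi.single a 1) := by
      intro x
      conv_lhs => rw [show x = ∑ i, x i • (Pi.single i (1 : ℝ) : Fin 3 → ℝ) by
        funext k
        simp [Finset.sum_apply, Pi.single_apply]]
      rw [map_sum]
      exact Finset.sum_congr rfl fun i _ => by rw [map_smul, smul_eq_mul]
    have hneg : ∀ i, n i ⬝ᵥ (fun a => -F (Pi.single a 1)) < 0 := by
      intro i
      have h1 := hF (n i) (subset_convexHull ℝ _ (Set.mem_range_self i))
      rw [hrep] at h1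
      have h2 : n i ⬝ᵥ (fun a => -F (Pi.single a 1)) = -∑ a, n i a * F (Pi.single a 1) := by
        simp [dotProduct]
      rw [h2]
      linarith
    have hy : (fun a => -F (Pi.single a 1)) ≠ (0 : Fin 3 → ℝ) := by
      intro h
      have := hneg 0
      rw [h, dotProduct_zero] at this
      exact lt_irrefl _ this
    obtain ⟨i, hi⟩ := exists_pos hβ hcomp _ hy
    exact lt_irrefl _ (hi.trans (hneg i))
  obtain ⟨ι, hι, z, w, hz, hai, hw, hw1, hwz⟩ := eq_pos_convex_span_of_mem_convexHull h0
  have hex : ∀ x : ι, ∃ i, n i = z x := fun x => hz (Set.mem_range_self x)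
  choose e he using hex
  have hinj : Function.Injective e := by
    intro x x' h
    apply hai.injective
    rw [← he x, ← he x', h]
  have hcard : Fintype.card ι ≤ 4 := by
    have h1 := hai.card_le_finrank_succ
    have h2 := Submodule.finrank_le (vectorSpan ℝ (Set.range z))
    rw [Module.finrank_fin_fun] at h2
    omega
  have hns : ¬ Function.Surjective e := by
    intro hs
    have := Fintype.card_le_of_surjective e hs
    rw [Fintype.card_fin] at this
    omega
  obtain ⟨d, hd⟩ : ∃ d, ∀ x, e x ≠ d := by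
    by_contra hcon
    push Not at hcon
    exact hns hcon
  set a : Fin 5 → ℝ := fun i => ∑ x, if e x = i then w x else 0 with ha
  have ha0 : ∀ i, 0 ≤ a i := fun i => Finset.sum_nonneg fun x _ => by
    split_ifs
    · exact (hw x).le
    · exact le_refl _
  have had : a d = 0 := by
    rw [ha]
    exact Finset.sum_eq_zero fun x _ => if_neg (hd x)
  have hasum : ∑ i, a i = 1 := by
    rw [← hw1, ha]
    simp only
    rw [Finset.sum_comm]
    exact Finset.sum_congr rfl fun x _ => by simp
  have hav : ∑ i, a i • n i = 0 := by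
    rw [← hwz, ha]
    simp only [Finset.sum_smul]
    rw [Finset.sum_comm]
    refine Finset.sum_congr rfl fun x _ => ?_
    simp only [ite_smul, zero_smul]
    rw [Finset.sum_ite_eq]
    simp [he]
  have hpos : ∀ i, i ≠ d → 0 < a i := by
    intro i hi
    refine lt_of_le_of_ne (ha0 i) fun h => ?_
    have h1 := rel_zero hn a hav i d hi h.symm had
    rw [h1] at hasum
    simp at hasum
  refine ⟨d, fun k => a (d.succAbove k), fun k => hpos _ (Fin.succAbove_ne d k), ?_⟩
  rw [Fin.sum_univ_succAbove _ d, had, zero_smul, zero_add] at hav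
  exact hav

end Pool.Agent.Helper20.FIVE
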