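import Pool.Agent.Helper20.FIVE.Near5
import Pool.Agent.Helper21.FIVE.Gen
import Pool.Agent.Helper36.FX.NearW
import Pool.Agent.Helper84.FL.Geom

/-!
# Polytopes with at most five facets: reduction to a simplex cut by one plane
-/

set_option autoImplicit false

namespace Pool.Agent.Helper20.FIVE

open Matrix
open Pool.Agent.Helper22.Sym (toR)
open Pool.Agent.Helper84.FL (WidthLe)
open Pool.Agent.Helper12.LW (LFree)
open Pool.Agent.Helper36.FX (NearOpt)

/-- five half-spaces -/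
def Half (n : Fin 5 → Fin 3 → ℝ) (b : Fin 5 → ℝ) : Set (Fin 3 → ℝ) := {x | ∀ i, n i ⬝ᵥ x ≤ b i}

theorem lt_of_interior {n : Fin 5 → Fin 3 → ℝ} {b : Fin 5 → ℝ} {p : Fin 3 → ℝ}
    (hp : p ∈ interior (Half n b)) (i : Fin 5) (hi : n i ≠ 0) : n i ⬝ᵥ p < b i := by
  have h1 : Filter.Tendsto (fun t : ℝ => p + t • n i) (nhdsWithin 0 (Set.Ioi 0)) (nhds p) := by
    have h2 : Continuous fun t : ℝ => p + t • n i := by fun_prop
    have h3 := h2.tendsto 0
    simp only [zero_smul, add_zero] at h3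
    exact h3.mono_left nhdsWithin_le_nhds
  have h2 := h1.eventually (mem_interior_iff_mem_nhds.1 hp)
  obtain ⟨t, ht, ht0⟩ := (h2.and self_mem_nhdsWithin).exists
  have h3 := ht i
  rw [dotProduct_add, dotProduct_smul, smul_eq_mul] at h3
  have h4 : 0 < n i ⬝ᵥ n i := by
    have h5 : 0 ≤ n i ⬝ᵥ n i := Finset.sum_nonneg fun a _ => mul_self_nonneg _
    exact lt_of_le_of_ne h5 fun h => hi (dotProduct_self_eq_zero.1 h.symm)
  have h5 := mul_pos (show (0 : ℝ) < t from ht0) h4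
  linarith

theorem wide_of_not {K : Set (Fin 3 → ℝ)} {W : ℝ} (h : ¬ WidthLe K W) (r : Fin 3 → ℤ) (hr : r ≠ 0) :
    ∃ x ∈ K, ∃ x' ∈ K, W < toR r ⬝ᵥ (x - x') := by
  by_contra hcon
  push Not at hcon
  refine h ⟨r, hr, fun x hx x' hx' => ?_⟩
  have h1 := hcon x hx x' hx'
  have h2 : toR r ⬝ᵥ (x - x') = ∑ i, (x i - x' i) * (r i : ℝ) := by
    unfold dotProduct toR
    exact Finset.sum_congr rfl fun i _ => by rw [Pi.sub_apply]; ring
  rwa [h2] at h1

/-- the data of the five facet case -/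
structure FData (K : Set (Fin 3 → ℝ)) (W : ℝ) (g : Fin 4 → Fin 3 → ℝ) (b c : Fin 4 → ℝ) (h : ℝ)
    (s : ℝ) (o : Fin 3 → ℝ) (q : Fin 4 → Fin 3 → ℝ) : Prop where
  sub : Cut g b c h ⊆ interior K
  sum_g : ∑ j, g j = 0
  sum_b : ∑ j, b j = 1
  span : ∀ m : Fin 3 → ℝ, ∃ a : Fin 4 → ℝ, ∑ k, a k • g k = m
  c_nonneg : ∀ j, 0 ≤ c j
  c_le_one : ∀ j, c j ≤ 1
  c_zero : ∃ j, c j = 0
  c_one : ∃ j, c j = 1
  compact : IsCompact (Cut g b c h)
  int : (interior (Cut g b c h)).Nonempty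
  free : ∀ z : Fin 3 → ℤ, (∃ j, b j < g j ⬝ᵥ toR z) ∨ h < ∑ j, c j * (b j - g j ⬝ᵥ toR z)
  wide : ∀ r : Fin 3 → ℤ, r ≠ 0 → ∃ x ∈ Cut g b c h, ∃ x' ∈ Cut g b c h, W < toR r ⬝ᵥ (x - x')
  near : NearOpt (Cut g b c h) s o g b q
  asym : W < 3 / 2 + Real.sqrt (3 * (s ^ 2 + 4 * s + 1) / (1 + s)) / 2

theorem Pol_convex (n : Fin 5 → Fin 3 → ℝ) (p : Fin 3 → ℝ) (β : Fin 5 → ℝ) : Convex ℝ (Pol n p β) := by
  intro x hx y hy a a' ha ha' haa i
  have h1 : n i ⬝ᵥ (a • x + a' • y - p) = a * (n i ⬝ᵥ (x - p)) + a' * (n i ⬝ᵥ (y - p)) := by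
    simp only [dotProduct_sub, dotProduct_add, dotProduct_smul, smul_eq_mul]
    have : a' = 1 - a := by linarith
    rw [this]
    ring
  rw [h1]
  have h2 := mul_le_mul_of_nonneg_left (hx i) ha
  have h3 := mul_le_mul_of_nonneg_left (hy i) ha'
  have h4 : β i = a * β i + a' * β i := by
    rw [← add_mul, haa, one_mul]
  linarith

theorem not_widthLe {K : Set (Fin 3 → ℝ)} {W : ℝ}
    (h : ∀ r : Fin 3 → ℤ, r ≠ 0 → ∃ x ∈ K, ∃ x' ∈ K, W < toR r ⬝ᵥ (x - x')) : ¬ WidthLe K W := by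
  rintro ⟨r, hr, hle⟩
  obtain ⟨x, hx, x', hx', hlt⟩ := h r hr
  have h1 := hle x hx x' hx'
  have h2 : toR r ⬝ᵥ (x - x') = ∑ i, (x i - x' i) * (r i : ℝ) := by
    unfold dotProduct toR
    exact Finset.sum_congr rfl fun i _ => by rw [Pi.sub_apply]; ring
  rw [h2] at hlt
  linarith

/-- **Polytopes with at most five facets.** -/
theorem five_core (n : Fin 5 → Fin 3 → ℝ) (b : Fin 5 → ℝ) (hcomp : IsCompact (Half n b))
    (hint : (interior (Half n b)).Nonempty) (hfree : ∀ z : Fin 3 → ℤ, toR z ∉ interior (Half n b))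
    (W : ℝ) (hW0 : 0 < W) (hW : ¬ WidthLe (Half n b) W) :
    ∃ g b' c h s o q, FData (Half n b) W g b' c h s o q := by
  classical
  obtain ⟨p, hp⟩ := hint
  have hpK := interior_subset hp
  obtain ⟨β, hβ⟩ : ∃ β : Fin 5 → ℝ, β = fun i => if n i = 0 then 1 else b i - n i ⬝ᵥ p := ⟨_, rfl⟩
  have hβ0 : ∀ i, 0 < β i := by
    intro i
    rw [hβ]
    simp only
    split_ifs with hi
    · exact one_pos
    · linarith [lt_of_interior hp i hi]
  have heq : Pol n p β = Half n b := by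
    ext x
    have h1 : ∀ i, (n i ⬝ᵥ (x - p) ≤ β i ↔ n i ⬝ᵥ x ≤ b i) := by
      intro i
      rw [hβ]
      simp only
      split_ifs with hi
      · rw [hi, zero_dotProduct, zero_dotProduct]
        have h2 := hpK i
        rw [hi, zero_dotProduct] at h2
        exact ⟨fun _ => h2, fun _ => zero_le_one⟩
      · rw [dotProduct_sub]
        constructor <;> intro h <;> linarith
    exact forall_congr' h1
  obtain ⟨η, β', hη, hβ', hsh⟩ := shrink n p β hβ0 (by rw [heq]; exact hcomp) W hW0 (by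
    intro r hr
    rw [heq]
    exact wide_of_not hW r hr)
  obtain ⟨n', hn', hgen⟩ := Pool.Agent.Helper21.FIVE.exists_generic n η hη
  obtain ⟨h1, h2, h3⟩ := hsh n' hn'
  rw [heq] at h1
  have hpi : p ∈ interior (Pol n' p β') := Pol_interior n' p β' fun i => by
    rw [sub_self, dotProduct_zero]
    exact hβ' i
  have hLF : LFree (Pol n' p β') := ⟨h2, Pol_convex _ _ _, ⟨p, hpi⟩, fun z hz =>
    hfree z (h1 (interior_subset hz))⟩
  obtain ⟨s, o, v, b0, q, hnear, hs⟩ := Pool.Agent.Helper36.FX.exists_nearOpt_of_width hLF (not_widthLe h3)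
  obtain ⟨d, l, hl, hrel, htight⟩ := near5 hgen hβ' h2 hnear
  obtain ⟨g, b', c, h, hg, hb, hspan, hc0, hc1, hcz, hco, hK, hsl⟩ := plane_of_circ (p := p) hgen hβ' d l hl hrel
  choose X hX hXeq using htight
  have hopt : NearOpt (Pol n' p β') s o g b' X := by
    refine ⟨hnear.one_le, hg, hb, ?_, hnear.cmem, hnear.centre, hX, ?_⟩
    · intro k x hx
      rw [hK] at hx
      exact hx.1 k
    · intro k
      obtain ⟨t, ht⟩ := hsl k
      have h5 := hXeq k
      unfold sl at h5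
      rw [ht, ht, h5]
      ring
  rw [hK] at h1 h2 h3 hpi hopt
  refine ⟨g, b', c, h, s, o, X, ⟨h1, hg, hb, hspan, hc0, hc1, hcz, hco, h2, ⟨p, hpi⟩, ?_, h3, hopt, hs⟩⟩
  intro z
  by_contra hcon
  push Not at hcon
  exact hfree z (h1 hcon)

end Pool.Agent.Helper20.FIVE
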