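import Mathlib
import Pool.Agent.Helper12.LW.Defs

/-!
# The square matrix of a simplex and a superbase

`g 0, .., g 3` are vectors with sum zero, `f 0, f 1, f 2` a basis, `V k` the vector of the numbers `g k · f l`,
`F = (1/4) ∑ gq k (V k)ᵀ`, where `gq k` are the vertices of a regular tetrahedron.  Then `V k = Fᵀ gq k` and
`4 Fᵀ F` is the form `∑ (g k · x) ^ 2` in the basis.
-/

set_option autoImplicit false

namespace Pool.Agent.Helper20.FIVE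

open Matrix
open Pool.Agent.Helper12.LW (toR)

/-- the vertices of a regular tetrahedron -/
def gq : Fin 4 → Fin 3 → ℝ := ![![1, 1, 1], ![1, -1, -1], ![-1, 1, -1], ![-1, -1, 1]]

theorem gq_sum (a : Fin 3) : ∑ k, gq k a = 0 := by
  fin_cases a <;> simp [gq, Fin.sum_univ_four]

theorem gq_dot (k l : Fin 4) : gq k ⬝ᵥ gq l = if k = l then 3 else -1 := by
  fin_cases k <;> fin_cases l <;> simp [gq, dotProduct, Fin.sum_univ_three] <;> norm_num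

/-- the values of `g k` on the basis -/
def Vv (g : Fin 4 → Fin 3 → ℝ) (f : Fin 4 → Fin 3 → ℤ) (k : Fin 4) : Fin 3 → ℝ :=
  fun l => g k ⬝ᵥ toR (f l.castSucc)

/-- the square matrix -/
noncomputable def FF (g : Fin 4 → Fin 3 → ℝ) (f : Fin 4 → Fin 3 → ℤ) : Matrix (Fin 3) (Fin 3) ℝ :=
  Matrix.of fun a l => (∑ k, gq k a * Vv g f k l) / 4

theorem Vv_sum {g : Fin 4 → Fin 3 → ℝ} (hg : ∑ j, g j = 0) (f : Fin 4 → Fin 3 → ℤ) (l : Fin 3) :
    ∑ k, Vv g f k l = 0 := by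
  unfold Vv
  rw [← sum_dotProduct, hg, zero_dotProduct]

theorem FF_gq {g : Fin 4 → Fin 3 → ℝ} (hg : ∑ j, g j = 0) (f : Fin 4 → Fin 3 → ℤ) (k : Fin 4) :
    (FF g f)ᵀ *ᵥ gq k = Vv g f k := by
  funext l
  have h0 := Vv_sum hg f l
  rw [Fin.sum_univ_four] at h0
  have h1 : ((FF g f)ᵀ *ᵥ gq k) l = ∑ a, (∑ j, gq j a * Vv g f j l) / 4 * gq k a := rfl
  have h2 : ∑ a, (∑ j, gq j a * Vv g f j l) / 4 * gq k a = (∑ j, (gq j ⬝ᵥ gq k) * Vv g f j l) / 4 := by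
    simp only [dotProduct, Fin.sum_univ_four, Fin.sum_univ_three]
    ring
  rw [h1, h2]
  simp only [gq_dot, Fin.sum_univ_four]
  fin_cases k <;> simp <;> linarith

theorem FF_gram {g : Fin 4 → Fin 3 → ℝ} (hg : ∑ j, g j = 0) (f : Fin 4 → Fin 3 → ℤ) (l m : Fin 3) :
    4 * ((FF g f)ᵀ * FF g f) l m = ∑ k, Vv g f k l * Vv g f k m := by
  have hl := Vv_sum hg f l
  have hm := Vv_sum hg f m
  rw [Fin.sum_univ_four] at hl hm
  have h1 : ((FF g f)ᵀ * FF g f) l m =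
      ∑ a, (∑ j, gq j a * Vv g f j l) / 4 * ((∑ j, gq j a * Vv g f j m) / 4) := rfl
  have h2 : ∑ a, (∑ j, gq j a * Vv g f j l) / 4 * ((∑ j, gq j a * Vv g f j m) / 4) =
      (∑ j, ∑ k, (gq j ⬝ᵥ gq k) * (Vv g f j l * Vv g f k m)) / 16 := by
    simp only [dotProduct, Fin.sum_univ_four, Fin.sum_univ_three]
    ring
  rw [h1, h2]
  simp only [gq_dot, Fin.sum_univ_four]
  obtain ⟨x3, hx3⟩ : ∃ x, x = Vv g f 3 l := ⟨_, rfl⟩
  obtain ⟨y3, hy3⟩ : ∃ y, y = Vv g f 3 m := ⟨_, rfl⟩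
  have e1 : Vv g f 3 l = -(Vv g f 0 l + Vv g f 1 l + Vv g f 2 l) := by linarith
  have e2 : Vv g f 3 m = -(Vv g f 0 m + Vv g f 1 m + Vv g f 2 m) := by linarith
  rw [e1, e2]
  simp
  ring

/-- facts of the first type -/
theorem trace_c (A : Matrix (Fin 3) (Fin 3) ℝ) (x y : Fin 3 → ℝ) :
    trace (Aᵀ * vecMulVec x y) = x ⬝ᵥ (A *ᵥ y) := by
  simp only [Matrix.trace, Matrix.diag, Matrix.mul_apply, Matrix.transpose_apply, vecMulVec_apply,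
    dotProduct, mulVec, Fin.sum_univ_three]
  ring

/-- **The values of `g k` in coordinates.** -/
theorem fact_c {g : Fin 4 → Fin 3 → ℝ} (hg : ∑ j, g j = 0) (f : Fin 4 → Fin 3 → ℤ) (k : Fin 4)
    (x : Fin 3 → ℝ) : trace ((FF g f)ᵀ * vecMulVec (gq k) x) = Vv g f k ⬝ᵥ x := by
  rw [trace_c, dotProduct_mulVec, ← mulVec_transpose, FF_gq hg]

/-- the point with the coordinates `x` -/
def pt (f : Fin 4 → Fin 3 → ℤ) (x : Fin 3 → ℝ) : Fin 3 → ℝ := ∑ l : Fin 3, x l • toR (f l.castSucc)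

theorem Vv_pt (g : Fin 4 → Fin 3 → ℝ) (f : Fin 4 → Fin 3 → ℤ) (k : Fin 4) (x : Fin 3 → ℝ) :
    Vv g f k ⬝ᵥ x = g k ⬝ᵥ pt f x := by
  unfold pt Vv
  rw [dotProduct_sum]
  simp only [dotProduct_smul, smul_eq_mul]
  unfold dotProduct
  exact Finset.sum_congr rfl fun l _ => mul_comm _ _

/-- **The values of a functional on differences**: `u` are the values of the functional on the basis, `Z` is the
inverse of `Fᵀ F`. -/
theorem fact_w {g : Fin 4 → Fin 3 → ℝ} (hg : ∑ j, g j = 0) (f : Fin 4 → Fin 3 → ℤ)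
    (Z : Matrix (Fin 3) (Fin 3) ℝ) (hZ : ((FF g f)ᵀ * FF g f) * Z = 1) (r : Fin 3 → ℝ) (x : Fin 3 → ℝ) :
    4 * (r ⬝ᵥ pt f x) = ∑ j, (g j ⬝ᵥ pt f x) *
      trace ((FF g f * Z)ᵀ * vecMulVec (gq j) (fun l => r ⬝ᵥ toR (f l.castSucc))) := by
  obtain ⟨u, hu⟩ : ∃ u : Fin 3 → ℝ, u = fun l => r ⬝ᵥ toR (f l.castSucc) := ⟨_, rfl⟩
  rw [← hu]
  have h1 : r ⬝ᵥ pt f x = u ⬝ᵥ x := by
    unfold pt
    rw [dotProduct_sum, hu]
    simp only [dotProduct_smul, smul_eq_mul]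
    unfold dotProduct
    exact Finset.sum_congr rfl fun l _ => mul_comm _ _
  obtain ⟨N, hN⟩ : ∃ N : Matrix (Fin 3) (Fin 3) ℝ, N = (FF g f)ᵀ * FF g f := ⟨_, rfl⟩
  have hNs : Nᵀ = N := by rw [hN, Matrix.transpose_mul, Matrix.transpose_transpose]
  have h2 : ∀ j, trace ((FF g f * Z)ᵀ * vecMulVec (gq j) u) = Vv g f j ⬝ᵥ (Z *ᵥ u) := by
    intro j
    rw [trace_c, ← Matrix.mulVec_mulVec, dotProduct_mulVec, ← mulVec_transpose, FF_gq hg]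
  have h3 : ∀ y : Fin 3 → ℝ, ∑ j, (Vv g f j ⬝ᵥ x) * (Vv g f j ⬝ᵥ y) = 4 * (x ⬝ᵥ (N *ᵥ y)) := by
    intro y
    have h4 : 4 * (x ⬝ᵥ (N *ᵥ y)) = ∑ l, ∑ m, x l * y m * (4 * N l m) := by
      simp only [dotProduct, mulVec, Fin.sum_univ_three]
      ring
    rw [h4]
    simp only [hN, FF_gram hg, dotProduct, Fin.sum_univ_three, Fin.sum_univ_four]
    ring
  simp only [h2, ← Vv_pt]
  rw [h3, h1, Matrix.mulVec_mulVec, hN, hZ, Matrix.one_mulVec, dotProduct_comm]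

/-- the inverse exists -/
theorem exists_Z {g : Fin 4 → Fin 3 → ℝ} (hg : ∑ j, g j = 0) (f : Fin 4 → Fin 3 → ℤ)
    (h : ∀ x : Fin 3 → ℝ, (∀ k, g k ⬝ᵥ pt f x = 0) → x = 0) :
    ∃ Z : Matrix (Fin 3) (Fin 3) ℝ, ((FF g f)ᵀ * FF g f) * Z = 1 := by
  have h1 : IsUnit (FF g f) := by
    rw [← Matrix.mulVec_injective_iff_isUnit]
    have h2 : ∀ x : Fin 3 → ℝ, FF g f *ᵥ x = 0 → x = 0 := by
      intro x hx
      apply h
      intro k
      rw [← Vv_pt, ← fact_c hg, trace_c, hx, dotProduct_zero]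
    intro x y hxy
    have h3 : FF g f *ᵥ (x - y) = 0 := by
      rw [Matrix.mulVec_sub, sub_eq_zero]
      exact hxy
    exact sub_eq_zero.1 (h2 _ h3)
  have h2 : IsUnit ((FF g f)ᵀ * FF g f) := ((Matrix.isUnit_transpose _).2 h1).mul h1
  exact ⟨((FF g f)ᵀ * FF g f)⁻¹, Matrix.mul_nonsing_inv _ ((Matrix.isUnit_iff_isUnit_det _).1 h2)⟩

end Pool.Agent.Helper20.FIVE
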