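import Pool.Agent.Helper20.FIVE.Plane
import Pool.Agent.Helper36.FX.NearOpt

/-!
# Polytopes with five facets: the simplex of the asymmetry consists of four facets
-/

set_option autoImplicit false

namespace Pool.Agent.Helper20.FIVE

open Matrix
open Pool.Agent.Helper22.Sym (toR)
open Pool.Agent.Helper36.FX (NearOpt)

/-- the slack of the facet `i` -/
def sl (n : Fin 5 → Fin 3 → ℝ) (p : Fin 3 → ℝ) (β : Fin 5 → ℝ) (i : Fin 5) (x : Fin 3 → ℝ) : ℝ :=
  β i - n i ⬝ᵥ (x - p)

theorem sl_cont (n : Fin 5 → Fin 3 → ℝ) (p : Fin 3 → ℝ) (β : Fin 5 → ℝ) (i : Fin 5) :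
    Continuous (sl n p β i) := by
  unfold sl dotProduct
  fun_prop

theorem sl_comb (n : Fin 5 → Fin 3 → ℝ) (p : Fin 3 → ℝ) (β : Fin 5 → ℝ) (i : Fin 5) (t : ℝ)
    (x y : Fin 3 → ℝ) : sl n p β i (x - t • (y - x)) = (1 + t) * sl n p β i x - t * sl n p β i y := by
  unfold sl
  simp only [dotProduct_sub, dotProduct_smul, smul_eq_mul]
  ring

/-- a centre for `s` is a point where all the slacks are large -/
theorem centre_iff {n : Fin 5 → Fin 3 → ℝ} {p : Fin 3 → ℝ} {β : Fin 5 → ℝ} {s : ℝ} (hs : 0 < s)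
    (c x : Fin 3 → ℝ) : c - (1 / s) • (x - c) ∈ Pol n p β ↔
      ∀ i, sl n p β i x ≤ (1 + s) * sl n p β i c := by
  have h1 : ∀ i, (n i ⬝ᵥ (c - (1 / s) • (x - c) - p) ≤ β i) ↔ sl n p β i x ≤ (1 + s) * sl n p β i c := by
    intro i
    have h2 := sl_comb n p β i (1 / s) c x
    have h3 : s * ((1 + 1 / s) * sl n p β i c - 1 / s * sl n p β i x) =
        (1 + s) * sl n p β i c - sl n p β i x := by
      field_simp
      ring
    have h4 : s * sl n p β i (c - (1 / s) • (x - c)) = (1 + s) * sl n p β i c - sl n p β i x := by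
      rw [h2, h3]
    constructor
    · intro h
      have h5 : 0 ≤ sl n p β i (c - (1 / s) • (x - c)) := by
        unfold sl
        linarith
      have := mul_nonneg hs.le h5
      linarith
    · intro h
      have h5 : 0 ≤ s * sl n p β i (c - (1 / s) • (x - c)) := by linarith
      have h6 := nonneg_of_mul_nonneg_right h5 hs
      unfold sl at h6
      linarith
  exact forall_congr' h1

/-- **The optimal centre touches four facets in a positive relation.** -/
theorem near5 {n : Fin 5 → Fin 3 → ℝ} {p : Fin 3 → ℝ} {β : Fin 5 → ℝ} (hn : Gen n)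
    (hβ : ∀ i, 0 < β i) (hcomp : IsCompact (Pol n p β)) {s : ℝ} {c : Fin 3 → ℝ} {v : Fin 4 → Fin 3 → ℝ}
    {b : Fin 4 → ℝ} {q : Fin 4 → Fin 3 → ℝ} (h : NearOpt (Pol n p β) s c v b q) :
    ∃ (d : Fin 5) (l : Fin 4 → ℝ), (∀ k, 0 < l k) ∧ ∑ k, l k • n (d.succAbove k) = 0 ∧
      ∀ k, ∃ x ∈ Pol n p β, sl n p β (d.succAbove k) x = (1 + s) * sl n p β (d.succAbove k) c := by
  classical
  have hs : 0 < s := by linarith [h.one_le]
  have hex : ∀ i, ∃ x ∈ Pol n p β, ∀ y ∈ Pol n p β, sl n p β i y ≤ sl n p β i x := by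
    intro i
    obtain ⟨x, hx, hmax⟩ := hcomp.exists_isMaxOn ⟨c, h.cmem⟩ (sl_cont n p β i).continuousOn
    exact ⟨x, hx, fun y hy => hmax hy⟩
  choose X hX hmax using hex
  have hle : ∀ i, sl n p β i (X i) ≤ (1 + s) * sl n p β i c := fun i =>
    (centre_iff hs c (X i)).1 (h.centre _ (hX i)) i
  -- no better centre
  have hno : ∀ c' : Fin 3 → ℝ, ¬ ∀ i, sl n p β i (X i) < (1 + s) * sl n p β i c' := by
    intro c' hc'
    have hev : ∀ᶠ s' in nhdsWithin s (Set.Iio s), 0 < s' ∧ ∀ i, sl n p β i (X i) < (1 + s') * sl n p β i c' := by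
      refine Filter.Eventually.and ?_ (Filter.eventually_all.2 fun i => ?_)
      · exact nhdsWithin_le_nhds (lt_mem_nhds hs)
      · have hc : Continuous fun s' : ℝ => (1 + s') * sl n p β i c' := by fun_prop
        exact nhdsWithin_le_nhds ((hc.tendsto s).eventually (lt_mem_nhds (hc' i)))
    obtain ⟨s', ⟨hs'0, hs'⟩, hlt⟩ := (hev.and self_mem_nhdsWithin).exists
    have hlt' : s' < s := hlt
    have hcen : ∀ x ∈ Pol n p β, c' - (1 / s') • (x - c') ∈ Pol n p β := fun x hx =>
      (centre_iff hs'0 c' x).2 fun i => (hmax i x hx).trans (hs' i).le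
    have h1 : ∀ k, (b k - v k ⬝ᵥ q k) ≤ (1 + s') * (b k - v k ⬝ᵥ c') := by
      intro k
      have h2 := h.le k _ (hcen _ (h.mem k))
      have h3 : v k ⬝ᵥ (c' - (1 / s') • (q k - c')) = (1 + 1 / s') * (v k ⬝ᵥ c') - 1 / s' * (v k ⬝ᵥ q k) := by
        simp only [dotProduct_sub, dotProduct_smul, smul_eq_mul]
        ring
      rw [h3] at h2
      have h4 : s' * ((1 + 1 / s') * (v k ⬝ᵥ c') - 1 / s' * (v k ⬝ᵥ q k)) = (1 + s') * (v k ⬝ᵥ c') - v k ⬝ᵥ q k := by
        field_simp
        ring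
      have h5 := mul_le_mul_of_nonneg_left h2 hs'0.le
      rw [h4] at h5
      nlinarith
    have h2 : ∑ k, (b k - v k ⬝ᵥ q k) ≤ ∑ k, (1 + s') * (b k - v k ⬝ᵥ c') :=
      Finset.sum_le_sum fun k _ => h1 k
    have h3 : ∀ z : Fin 3 → ℝ, ∑ k, (b k - v k ⬝ᵥ z) = 1 := fun z => by
      rw [Finset.sum_sub_distrib, ← sum_dotProduct, h.sum_v, zero_dotProduct, sub_zero, h.sum_b]
    simp only [h.val] at h2
    rw [← Finset.mul_sum, ← Finset.mul_sum, h3, h3] at h2
    linarith
  -- separation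
  obtain ⟨U, hU⟩ : ∃ U : Set (Fin 5 → ℝ), U = {y | ∃ c', ∀ i, y i < (1 + s) * sl n p β i c' - sl n p β i (X i)} :=
    ⟨_, rfl⟩
  have hUconv : Convex ℝ U := by
    rw [hU]
    rintro y ⟨c1, h1⟩ y' ⟨c2, h2⟩ a a' ha ha' haa
    refine ⟨a • c1 + a' • c2, fun i => ?_⟩
    have e1 : sl n p β i (a • c1 + a' • c2) = a * sl n p β i c1 + a' * sl n p β i c2 := by
      unfold sl
      simp only [dotProduct_sub, dotProduct_add, dotProduct_smul, smul_eq_mul]
      have : a' = 1 - a := by linarith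
      rw [this]
      ring
    have e2 : (a • y + a' • y') i = a * y i + a' * y' i := rfl
    rw [e1, e2]
    have e3 : (1 + s) * (a * sl n p β i c1 + a' * sl n p β i c2) - sl n p β i (X i) =
        a * ((1 + s) * sl n p β i c1 - sl n p β i (X i)) + a' * ((1 + s) * sl n p β i c2 - sl n p β i (X i)) := by
      have : a' = 1 - a := by linarith
      rw [this]
      ring
    rw [e3]
    rcases eq_or_lt_of_le ha with h0 | h0
    · have ha1 : a' = 1 := by linarith
      rw [← h0, ha1]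
      have := h2 i
      linarith
    · have h3 := mul_lt_mul_of_pos_left (h1 i) h0
      have h4 := mul_le_mul_of_nonneg_left (h2 i).le ha'
      linarith
  have hUopen : IsOpen U := by
    have : U = ⋃ c', ⋂ i, {y : Fin 5 → ℝ | y i < (1 + s) * sl n p β i c' - sl n p β i (X i)} := by
      rw [hU]
      ext y
      simp
    rw [this]
    exact isOpen_iUnion fun c' => isOpen_iInter_of_finite fun i =>
      isOpen_lt (continuous_apply i) continuous_const
  have hU0 : (0 : Fin 5 → ℝ) ∉ U := by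
    rw [hU]
    rintro ⟨c', hc'⟩
    exact hno c' fun i => by
      have := hc' i
      simp only [Pi.zero_apply] at this
      linarith
  obtain ⟨F, hF⟩ := geometric_hahn_banach_open_point hUconv hUopen hU0
  rw [map_zero] at hF
  obtain ⟨l, hl⟩ : ∃ l : Fin 5 → ℝ, l = fun i => F (Pi.single i 1) := ⟨_, rfl⟩
  have hrep : ∀ y : Fin 5 → ℝ, F y = ∑ i, l i * y i := by
    intro y
    conv_lhs => rw [show y = ∑ i, y i • (Pi.single i (1 : ℝ) : Fin 5 → ℝ) by
      funext k
      simp [Finset.sum_apply, Pi.single_apply]]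
    rw [map_sum]
    exact Finset.sum_congr rfl fun i _ => by rw [map_smul, smul_eq_mul, hl]; ring
  have hmemU : ∀ (c' : Fin 3 → ℝ) (e : Fin 5 → ℝ), (∀ i, 0 < e i) →
      ∑ i, l i * ((1 + s) * sl n p β i c' - sl n p β i (X i) - e i) < 0 := by
    intro c' e he
    have h1 := hF (fun i => (1 + s) * sl n p β i c' - sl n p β i (X i) - e i) (by
      rw [hU]
      exact ⟨c', fun i => by have := he i; simp only; linarith⟩)
    rwa [hrep] at h1
  have hsplit : ∀ (c' : Fin 3 → ℝ) (e : Fin 5 → ℝ),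
      ∑ i, l i * ((1 + s) * sl n p β i c' - sl n p β i (X i) - e i) =
      ∑ i, l i * ((1 + s) * sl n p β i c' - sl n p β i (X i)) - ∑ i, l i * e i := by
    intro c' e
    rw [← Finset.sum_sub_distrib]
    exact Finset.sum_congr rfl fun i _ => by ring
  have ha : ∀ c' : Fin 3 → ℝ, ∑ i, l i * ((1 + s) * sl n p β i c' - sl n p β i (X i)) ≤ 0 := by
    intro c'
    by_contra hcon
    push Not at hcon
    obtain ⟨S, hS⟩ : ∃ S, S = ∑ i, l i * ((1 + s) * sl n p β i c' - sl n p β i (X i)) := ⟨_, rfl⟩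
    rw [← hS] at hcon
    obtain ⟨T, hT⟩ : ∃ T : ℝ, T = ∑ i, |l i| + 1 := ⟨_, rfl⟩
    have hT1 : 1 ≤ T := by
      rw [hT]
      have : 0 ≤ ∑ i, |l i| := Finset.sum_nonneg fun i _ => abs_nonneg _
      linarith
    have h1 := hmemU c' (fun _ => S / T) (fun _ => div_pos hcon (by linarith))
    rw [hsplit, ← hS] at h1
    have h2 : ∑ i, l i * (S / T) ≤ S := by
      rw [← Finset.sum_mul]
      have h3 : ∑ i, l i ≤ T := by
        have : ∑ i, l i ≤ ∑ i, |l i| := Finset.sum_le_sum fun i _ => le_abs_self _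
        linarith
      have h4 := mul_le_mul_of_nonneg_right h3 (div_nonneg hcon.le (show (0 : ℝ) ≤ T by linarith))
      have h5 : T * (S / T) = S := by
        field_simp
      linarith
    linarith
  have hpos : ∀ i, 0 ≤ l i := by
    intro i
    by_contra hcon
    push Not at hcon
    obtain ⟨S, hS⟩ : ∃ S, S = ∑ i, l i * ((1 + s) * sl n p β i c - sl n p β i (X i)) := ⟨_, rfl⟩
    obtain ⟨t, ht⟩ : ∃ t : ℝ, t = (|S| + ∑ j, |l j| + 1) / -l i := ⟨_, rfl⟩
    have hA : 0 ≤ ∑ j, |l j| := Finset.sum_nonneg fun i _ => abs_nonneg _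
    have ht0 : 0 < t := by
      rw [ht]
      exact div_pos (by positivity) (by linarith)
    have h1 := hmemU c (fun j => (if j = i then t else 0) + 1) (fun j => by
      split_ifs
      · linarith
      · linarith)
    rw [hsplit, ← hS] at h1
    have h2 : ∑ j, l j * ((if j = i then t else 0) + 1) = l i * t + ∑ j, l j := by
      simp only [mul_add, mul_one, Finset.sum_add_distrib, mul_ite, mul_zero, Finset.sum_ite_eq',
        Finset.mem_univ, if_true]
    have h3 : l i * t = -(|S| + ∑ j, |l j| + 1) := by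
      rw [ht]
      have : l i ≠ 0 := hcon.ne
      field_simp
    have h4 : ∑ j, l j ≤ ∑ j, |l j| := Finset.sum_le_sum fun i _ => le_abs_self _
    have h5 := neg_abs_le S
    rw [h2, h3] at h1
    linarith
  have hne : ∃ i, l i ≠ 0 := by
    by_contra hcon
    push Not at hcon
    have h1 := hmemU c (fun _ => 1) (fun _ => one_pos)
    simp [hcon] at h1
  have hrel : ∑ i, l i • n i = 0 := by
    obtain ⟨w, hw⟩ : ∃ w : Fin 3 → ℝ, w = ∑ i, l i • n i := ⟨_, rfl⟩
    rw [← hw]
    by_contra hcon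
    have hww : 0 < w ⬝ᵥ w := by
      have h5 : 0 ≤ w ⬝ᵥ w := Finset.sum_nonneg fun a _ => mul_self_nonneg _
      exact lt_of_le_of_ne h5 fun h => hcon (dotProduct_self_eq_zero.1 h.symm)
    have hlin : ∀ t : ℝ, ∑ i, l i * ((1 + s) * sl n p β i (p - t • w) - sl n p β i (X i)) =
        (1 + s) * t * (w ⬝ᵥ w) + ∑ i, l i * ((1 + s) * β i - sl n p β i (X i)) := by
      intro t
      have h1 : w ⬝ᵥ w = ∑ i, l i * (n i ⬝ᵥ w) := by
        conv_lhs => rw [hw, sum_dotProduct]
        rw [← hw]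
        exact Finset.sum_congr rfl fun i _ => by rw [smul_dotProduct, smul_eq_mul]
      rw [h1, Finset.mul_sum, ← Finset.sum_add_distrib]
      refine Finset.sum_congr rfl fun i _ => ?_
      have h2 : sl n p β i (p - t • w) = β i + t * (n i ⬝ᵥ w) := by
        unfold sl
        rw [sub_sub_cancel_left, dotProduct_neg, dotProduct_smul, smul_eq_mul]
        ring
      rw [h2]
      ring
    obtain ⟨S, hS⟩ : ∃ S, S = ∑ i, l i * ((1 + s) * β i - sl n p β i (X i)) := ⟨_, rfl⟩
    have h1 := ha (p - ((|S| + 1) / ((1 + s) * (w ⬝ᵥ w))) • w)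
    rw [hlin, ← hS] at h1
    have h2 : (1 + s) * ((|S| + 1) / ((1 + s) * (w ⬝ᵥ w))) * (w ⬝ᵥ w) = |S| + 1 := by
      field_simp
    rw [h2] at h1
    have := neg_abs_le S
    linarith
  have htight : ∀ i, 0 < l i → sl n p β i (X i) = (1 + s) * sl n p β i c := by
    intro i hi
    have h1 : ∀ j ∈ Finset.univ, 0 ≤ l j * ((1 + s) * sl n p β j c - sl n p β j (X j)) := fun j _ =>
      mul_nonneg (hpos j) (sub_nonneg.2 (hle j))
    have h2 := (Finset.sum_eq_zero_iff_of_nonneg h1).1 (le_antisymm (ha c) (Finset.sum_nonneg h1)) i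
      (Finset.mem_univ i)
    rcases mul_eq_zero.1 h2 with h3 | h3
    · linarith
    · linarith
  by_cases hall : ∀ i, 0 < l i
  · obtain ⟨d, l', hl', hrel'⟩ := exists_circ hn hβ hcomp
    exact ⟨d, l', hl', hrel', fun k => ⟨X _, hX _, htight _ (hall _)⟩⟩
  · push Not at hall
    obtain ⟨d, hd⟩ := hall
    have hd0 : l d = 0 := le_antisymm hd (hpos d)
    have hpos' : ∀ i, i ≠ d → 0 < l i := by
      intro i hi
      refine lt_of_le_of_ne (hpos i) fun h0 => ?_
      have h1 := rel_zero hn l hrel i d hi h0.symm hd0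
      obtain ⟨j, hj⟩ := hne
      exact hj (by rw [h1]; rfl)
    refine ⟨d, fun k => l (d.succAbove k), fun k => hpos' _ (Fin.succAbove_ne d k), ?_,
      fun k => ⟨X _, hX _, htight _ (hpos' _ (Fin.succAbove_ne d k))⟩⟩
    rw [Fin.sum_univ_succAbove _ d, hd0, zero_smul, zero_add] at hrel
    exact hrel

end Pool.Agent.Helper20.FIVE
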