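import Pool.Agent.Helper20.FIVE.Circ

/-!
# A generic polytope with five facets is a simplex cut by one plane
-/

set_option autoImplicit false

namespace Pool.Agent.Helper20.FIVE

open Matrix
open Pool.Agent.Helper22.Sym (toR)

/-- a simplex `g j · x ≤ b j` cut by the plane `∑ c j * L j = h`, where `L j = b j - g j · x` -/
def Cut (g : Fin 4 → Fin 3 → ℝ) (b c : Fin 4 → ℝ) (h : ℝ) : Set (Fin 3 → ℝ) :=
  {x | (∀ j, g j ⬝ᵥ x ≤ b j) ∧ ∑ j, c j * (b j - g j ⬝ᵥ x) ≤ h}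

theorem span3 (u v w : Fin 3 → ℝ) (hdet : (Matrix.of ![u, v, w]).det ≠ 0) (m : Fin 3 → ℝ) :
    ∃ a : Fin 3 → ℝ, a 0 • u + a 1 • v + a 2 • w = m := by
  refine ⟨m ᵥ* (Matrix.of ![u, v, w])⁻¹, ?_⟩
  have h1 : (m ᵥ* (Matrix.of ![u, v, w])⁻¹) ᵥ* Matrix.of ![u, v, w] = m := by
    rw [Matrix.vecMul_vecMul, Matrix.nonsing_inv_mul _ (isUnit_iff_ne_zero.2 hdet), Matrix.vecMul_one]
  funext i
  have h2 := congrFun h1 i
  conv_lhs at h2 => rw [Matrix.vecMul, dotProduct, Fin.sum_univ_three]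
  simp only [Matrix.of_apply, Matrix.cons_val_zero, Matrix.cons_val_one, Matrix.cons_val] at h2
  simp only [Pi.add_apply, Pi.smul_apply, smul_eq_mul]
  exact h2

theorem sum_dot (g : Fin 4 → Fin 3 → ℝ) (a : Fin 4 → ℝ) (x : Fin 3 → ℝ) :
    (∑ j, a j • g j) ⬝ᵥ x = ∑ j, a j * (g j ⬝ᵥ x) := by
  rw [sum_dotProduct]
  exact Finset.sum_congr rfl fun j _ => by rw [smul_dotProduct, smul_eq_mul]

/-- **Five facets: a simplex and one plane.** -/
theorem plane_of_circ {n : Fin 5 → Fin 3 → ℝ} {p : Fin 3 → ℝ} {β : Fin 5 → ℝ} (hn : Gen n)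
    (hβ : ∀ i, 0 < β i) (d : Fin 5) (l : Fin 4 → ℝ) (hl : ∀ k, 0 < l k)
    (hrel : ∑ k, l k • n (d.succAbove k) = 0) :
    ∃ (g : Fin 4 → Fin 3 → ℝ) (b c : Fin 4 → ℝ) (h : ℝ), ∑ j, g j = 0 ∧ ∑ j, b j = 1 ∧
      (∀ m : Fin 3 → ℝ, ∃ a : Fin 4 → ℝ, ∑ k, a k • g k = m) ∧
      (∀ j, 0 ≤ c j) ∧ (∀ j, c j ≤ 1) ∧ (∃ j, c j = 0) ∧ (∃ j, c j = 1) ∧ Pol n p β = Cut g b c h ∧
      ∀ k, ∃ t : ℝ, ∀ x, b k - g k ⬝ᵥ x = t * (β (d.succAbove k) - n (d.succAbove k) ⬝ᵥ (x - p)) := by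
  classical
  obtain ⟨E, hE⟩ : ∃ E : Fin 4 → Fin 5, E = d.succAbove := ⟨_, rfl⟩
  rw [← hE] at hrel
  have hEinj : Function.Injective E := by rw [hE]; exact Fin.succAbove_right_injective
  obtain ⟨T, hT⟩ : ∃ T : ℝ, T = ∑ k, l k * β (E k) := ⟨_, rfl⟩
  have hT0 : 0 < T := by
    rw [hT]
    exact Finset.sum_pos (fun k _ => mul_pos (hl k) (hβ _)) Finset.univ_nonempty
  obtain ⟨g, hg⟩ : ∃ g : Fin 4 → Fin 3 → ℝ, g = fun k => (l k / T) • n (E k) := ⟨_, rfl⟩
  obtain ⟨b, hb⟩ : ∃ b : Fin 4 → ℝ, b = fun k => l k / T * β (E k) + g k ⬝ᵥ p := ⟨_, rfl⟩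
  have hgk : ∀ k, g k = (l k / T) • n (E k) := fun k => by rw [hg]
  have hbk : ∀ k, b k = l k / T * β (E k) + g k ⬝ᵥ p := fun k => by rw [hb]
  have hlT : ∀ k, 0 < l k / T := fun k => div_pos (hl k) hT0
  have hgsum : ∑ j, g j = 0 := by
    have h1 : ∑ j, g j = T⁻¹ • ∑ k, l k • n (E k) := by
      rw [Finset.smul_sum]
      refine Finset.sum_congr rfl fun k _ => ?_
      rw [hgk, smul_smul, div_eq_inv_mul]
    rw [h1, hrel, smul_zero]
  have hgp : ∑ j, g j ⬝ᵥ p = 0 := by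
    have h1 := sum_dotProduct Finset.univ g p
    rw [hgsum, zero_dotProduct] at h1
    exact h1.symm
  have hbsum : ∑ j, b j = 1 := by
    simp only [hbk, Finset.sum_add_distrib, hgp, add_zero]
    have h1 : ∑ k, l k / T * β (E k) = (∑ k, l k * β (E k)) / T := by
      rw [Finset.sum_div]
      exact Finset.sum_congr rfl fun k _ => by ring
    rw [h1, ← hT, div_self hT0.ne']
  have hspan : ∀ m : Fin 3 → ℝ, ∃ a : Fin 4 → ℝ, ∑ k, a k • g k = m := by
    intro m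
    have h01 : E 0 ≠ E 1 := fun h => by have := hEinj h; simp at this
    have h12 : E 1 ≠ E 2 := fun h => by have := hEinj h; simp at this
    have h02 : E 0 ≠ E 2 := fun h => by have := hEinj h; simp at this
    obtain ⟨a, ha⟩ := span3 _ _ _ (hn (E 0) (E 1) (E 2) h01 h12 h02) m
    refine ⟨![a 0 / (l 0 / T), a 1 / (l 1 / T), a 2 / (l 2 / T), 0], ?_⟩
    rw [Fin.sum_univ_four]
    simp only [Matrix.cons_val_zero, Matrix.cons_val_one, Matrix.cons_val, hgk, smul_smul]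
    rw [div_mul_cancel₀ _ (hlT 0).ne', div_mul_cancel₀ _ (hlT 1).ne', div_mul_cancel₀ _ (hlT 2).ne',
      zero_mul, zero_smul, add_zero]
    exact ha
  -- the fifth facet
  obtain ⟨a, ha⟩ := hspan (-n d)
  have hnd : n d ≠ 0 := by
    intro h0
    have h01 : d ≠ E 0 := fun h => Fin.succAbove_ne d 0 (by rw [← hE]; exact h.symm)
    have h12 : E 0 ≠ E 1 := fun h => by have := hEinj h; simp at this
    have h02 : d ≠ E 1 := fun h => Fin.succAbove_ne d 1 (by rw [← hE]; exact h.symm)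
    refine hn d (E 0) (E 1) h01 h12 h02 (Matrix.det_eq_zero_of_row_eq_zero 0 fun i => ?_)
    simp [h0]
  obtain ⟨j0, hj0⟩ := Finite.exists_min a
  obtain ⟨j1, hj1⟩ := Finite.exists_max a
  have hlt : a j0 < a j1 := by
    refine lt_of_le_of_ne (hj0 j1) fun h => hnd ?_
    have h1 : ∀ j, a j = a j0 := fun j => le_antisymm ((hj1 j).trans h.ge) (hj0 j)
    have h2 : ∑ j, a j • g j = a j0 • ∑ j, g j := by
      rw [Finset.smul_sum]
      exact Finset.sum_congr rfl fun j _ => by rw [h1 j]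
    rw [h2, hgsum, smul_zero] at ha
    exact neg_eq_zero.1 ha.symm
  have hw : 0 < a j1 - a j0 := by linarith
  refine ⟨g, b, fun j => (a j - a j0) / (a j1 - a j0),
    (∑ j, a j * b j + (β d + n d ⬝ᵥ p) - a j0) / (a j1 - a j0), hgsum, hbsum, hspan, ?_, ?_, ?_, ?_, ?_, ?_⟩
  · intro j
    exact div_nonneg (by linarith [hj0 j]) hw.le
  · intro j
    rw [div_le_one hw]
    linarith [hj1 j]
  · exact ⟨j0, by simp⟩
  · exact ⟨j1, by simp [hw.ne']⟩
  · ext x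
    have hfac : ∀ k, (n (E k) ⬝ᵥ (x - p) ≤ β (E k) ↔ g k ⬝ᵥ x ≤ b k) := by
      intro k
      have h1 : g k ⬝ᵥ x - g k ⬝ᵥ p = l k / T * (n (E k) ⬝ᵥ (x - p)) := by
        rw [← dotProduct_sub, hgk, smul_dotProduct, smul_eq_mul]
      have h2 := hbk k
      constructor
      · intro h
        have h3 := mul_le_mul_of_nonneg_left h (hlT k).le
        linarith
      · intro h
        have h3 : l k / T * (n (E k) ⬝ᵥ (x - p)) ≤ l k / T * β (E k) := by linarith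
        exact le_of_mul_le_mul_left h3 (hlT k)
    have hgx : ∑ j, g j ⬝ᵥ x = 0 := by
      have h1 := sum_dotProduct Finset.univ g x
      rw [hgsum, zero_dotProduct] at h1
      exact h1.symm
    have hpl : (n d ⬝ᵥ (x - p) ≤ β d) ↔ ∑ j, (a j - a j0) / (a j1 - a j0) * (b j - g j ⬝ᵥ x) ≤
        (∑ j, a j * b j + (β d + n d ⬝ᵥ p) - a j0) / (a j1 - a j0) := by
      have h1 : ∑ j, (a j - a j0) / (a j1 - a j0) * (b j - g j ⬝ᵥ x)
          = (∑ j, a j * b j - ∑ j, a j * (g j ⬝ᵥ x) - a j0) / (a j1 - a j0) := by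
        have h2 : ∑ j, (a j - a j0) * (b j - g j ⬝ᵥ x)
            = ∑ j, a j * b j - ∑ j, a j * (g j ⬝ᵥ x) - a j0 := by
          have h3 : ∑ j, (a j - a j0) * (b j - g j ⬝ᵥ x) = ∑ j, a j * b j - ∑ j, a j * (g j ⬝ᵥ x)
              - a j0 * (∑ j, b j - ∑ j, g j ⬝ᵥ x) := by
            rw [← Finset.sum_sub_distrib, ← Finset.sum_sub_distrib, Finset.mul_sum,
              ← Finset.sum_sub_distrib]
            exact Finset.sum_congr rfl fun j _ => by ring
          rw [h3, hbsum, hgx]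
          ring
        rw [← h2, Finset.sum_div]
        exact Finset.sum_congr rfl fun j _ => by ring
      have h4 : ∑ j, a j * (g j ⬝ᵥ x) = -(n d ⬝ᵥ x) := by
        rw [← sum_dot, ha, neg_dotProduct]
      rw [h1, h4, div_le_div_iff_of_pos_right hw, dotProduct_sub]
      constructor <;> intro h <;> linarith
    constructor
    · intro hx
      exact ⟨fun k => (hfac k).1 (hx (E k)), hpl.1 (hx d)⟩
    · rintro ⟨hx1, hx2⟩ i
      by_cases hi : i = d
      · rw [hi]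
        exact hpl.2 hx2
      · obtain ⟨k, hk⟩ := Fin.exists_succAbove_eq hi
        rw [← hk, ← hE]
        exact (hfac k).2 (hx1 k)
  · intro k
    refine ⟨l k / T, fun x => ?_⟩
    rw [← hE, hbk, hgk, smul_dotProduct, smul_dotProduct, dotProduct_sub, smul_eq_mul, smul_eq_mul]
    ring

end Pool.Agent.Helper20.FIVE
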