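import Pool.Agent.Helper20.FIVE.Width

/-!
# Facts of a simplex whose facets are not moved

`L k x = b k - g k · x`, `∑ g = 0`, `∑ b = 1`.  The heights `b` are not known; what is known are lattice points on or
beyond the facets.  A transversal is a choice of one such point for every facet.
-/

set_option autoImplicit false

namespace Pool.Agent.Helper20.FIVE

open Matrix
open Pool.Agent.Helper12.LW (toR)

section

variable {g : Fin 4 → Fin 3 → ℝ} {b : Fin 4 → ℝ}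

/-- the sum of the barycentric coordinates -/
theorem sum_L (hg : ∑ j, g j = 0) (hb : ∑ j, b j = 1) (x : Fin 3 → ℝ) : ∑ k, (b k - g k ⬝ᵥ x) = 1 := by
  rw [Finset.sum_sub_distrib, ← sum_dotProduct, hg, zero_dotProduct, sub_zero, hb]

/-- **Transversals.** -/
theorem transversal (hb : ∑ j, b j = 1) (y : Fin 4 → Fin 3 → ℝ) (hy : ∀ k, b k ≤ g k ⬝ᵥ y k) :
    1 ≤ ∑ k, g k ⬝ᵥ y k := by
  rw [← hb]
  exact Finset.sum_le_sum fun k _ => hy k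

/-- the sum over a transversal does not depend on the origin -/
theorem transversal_shift (hg : ∑ j, g j = 0) (y : Fin 4 → Fin 3 → ℝ) (o : Fin 3 → ℝ) :
    ∑ k, g k ⬝ᵥ (y k - o) = ∑ k, g k ⬝ᵥ y k := by
  simp only [dotProduct_sub]
  rw [Finset.sum_sub_distrib, ← sum_dotProduct, hg, zero_dotProduct, sub_zero]

/-- a point which is not beyond facet `k` is behind every point beyond facet `k` -/
theorem behind {k : Fin 4} {x y : Fin 3 → ℝ} (hx : g k ⬝ᵥ x ≤ b k) (hy : b k ≤ g k ⬝ᵥ y) :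
    0 ≤ g k ⬝ᵥ (y - x) := by
  rw [dotProduct_sub]
  linarith

/-- **The height of a cut.** -/
theorem height_le (c : Fin 4 → ℝ) (hc : ∀ j, 0 ≤ c j)
    (y : Fin 4 → Fin 3 → ℝ) (hy : ∀ k, b k ≤ g k ⬝ᵥ y k) (x : Fin 3 → ℝ) :
    ∑ k, c k * (b k - g k ⬝ᵥ x) ≤ ∑ k, c k * (g k ⬝ᵥ (y k - x)) := by
  refine Finset.sum_le_sum fun k _ => mul_le_mul_of_nonneg_left ?_ (hc k)
  rw [dotProduct_sub]
  exact sub_le_sub_right (hy k) _

/-- a point of the body at a cut through `x` -/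
theorem cut_mem {K : Set (Fin 3 → ℝ)} (c : Fin 4 → ℝ) (x : Fin 3 → ℝ)
    (hcut : ∀ y ∈ K, ∑ k, c k * (b k - g k ⬝ᵥ y) ≤ ∑ k, c k * (b k - g k ⬝ᵥ x)) {z : Fin 3 → ℝ} (hz : z ∈ K) :
    0 ≤ ∑ k, c k * (g k ⬝ᵥ (z - x)) := by
  have h1 := hcut z hz
  have h2 : ∑ k, c k * (g k ⬝ᵥ (z - x)) = ∑ k, c k * (b k - g k ⬝ᵥ x) - ∑ k, c k * (b k - g k ⬝ᵥ z) := by
    simp only [Fin.sum_univ_four, dotProduct_sub]
    ring
  rw [h2]
  linarith

/-- **(P)** the height of a cut which truncates the vertex `t` -/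
theorem height_ge {K : Set (Fin 3 → ℝ)} (hin : ∀ y ∈ K, ∀ k, g k ⬝ᵥ y ≤ b k) (c : Fin 4 → ℝ) (hc : ∀ j, 0 ≤ c j)
    (x : Fin 3 → ℝ) (hcut : ∀ y ∈ K, ∑ k, c k * (b k - g k ⬝ᵥ y) ≤ ∑ k, c k * (b k - g k ⬝ᵥ x))
    {q : Fin 3 → ℝ} (hq : q ∈ K) (t : Fin 4) (ht : c t = 1) :
    b t - g t ⬝ᵥ q ≤ ∑ k, c k * (b k - g k ⬝ᵥ x) := by
  refine le_trans ?_ (hcut q hq)
  have h1 : c t * (b t - g t ⬝ᵥ q) ≤ ∑ k, c k * (b k - g k ⬝ᵥ q) :=
    Finset.single_le_sum (f := fun k => c k * (b k - g k ⬝ᵥ q))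
      (fun k _ => mul_nonneg (hc k) (sub_nonneg.2 (hin q hq k))) (Finset.mem_univ t)
  rwa [ht, one_mul] at h1

/-- **(S)** the height of a cut with `c i0 = 0` from the asymmetry: `o` the centre, `q k` the far points. -/
theorem height_ge_asym (hg : ∑ j, g j = 0) (hb : ∑ j, b j = 1) {K : Set (Fin 3 → ℝ)}
    (hin : ∀ y ∈ K, ∀ k, g k ⬝ᵥ y ≤ b k) (c : Fin 4 → ℝ) (hc1 : ∀ j, c j ≤ 1) (x : Fin 3 → ℝ)
    (hcut : ∀ y ∈ K, ∑ k, c k * (b k - g k ⬝ᵥ y) ≤ ∑ k, c k * (b k - g k ⬝ᵥ x))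
    {s : ℝ} (hs : 0 < s) {o : Fin 3 → ℝ} {q : Fin 4 → Fin 3 → ℝ} (hq : ∀ k, q k ∈ K)
    (hcen : ∀ y ∈ K, o - (1 / s) • (y - o) ∈ K)
    (hqo : ∀ k, b k - g k ⬝ᵥ q k = (1 + s) * (b k - g k ⬝ᵥ o)) (i0 : Fin 4) (h0 : c i0 = 0) :
    s - ((∑ k, (1 - c k)) - 1) ≤ s * ∑ k, c k * (b k - g k ⬝ᵥ x) := by
  -- the reflected point
  have h1 := hcut _ (hcen (q i0) (hq i0))
  have hL : ∀ k, b k - g k ⬝ᵥ (o - (1 / s) • (q i0 - o)) =
      (1 / s) * ((b k - g k ⬝ᵥ q k) - (b k - g k ⬝ᵥ q i0)) := by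
    intro k
    rw [hqo k]
    simp only [dotProduct_sub, dotProduct_smul, smul_eq_mul]
    field_simp
    ring
  simp only [hL] at h1
  have hq0 := sum_L hg hb (q i0)
  have hsum : ∑ k, (b k - g k ⬝ᵥ q k) = 1 + s := by
    simp only [hqo]
    rw [← Finset.mul_sum, sum_L hg hb o, mul_one]
  have h2 : s * ∑ k, c k * ((1 / s) * ((b k - g k ⬝ᵥ q k) - (b k - g k ⬝ᵥ q i0))) =
      s - ∑ k, (1 - c k) * ((b k - g k ⬝ᵥ q k) - (b k - g k ⬝ᵥ q i0)) := by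
    have h3 : ∀ k, s * (c k * ((1 / s) * ((b k - g k ⬝ᵥ q k) - (b k - g k ⬝ᵥ q i0)))) =
        ((b k - g k ⬝ᵥ q k) - (b k - g k ⬝ᵥ q i0)) -
          (1 - c k) * ((b k - g k ⬝ᵥ q k) - (b k - g k ⬝ᵥ q i0)) := by
      intro k
      field_simp
      ring
    rw [Finset.mul_sum]
    simp only [h3]
    rw [Finset.sum_sub_distrib, Finset.sum_sub_distrib, hsum, hq0]
    ring
  have h4 : ∑ k, (1 - c k) * ((b k - g k ⬝ᵥ q k) - (b k - g k ⬝ᵥ q i0)) ≤ (∑ k, (1 - c k)) - 1 := by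
    have h5 : (∑ k, (1 - c k)) - 1 = ∑ k, ((1 - c k) - if k = i0 then (1 : ℝ) else 0) := by
      have h6 : ∑ k, (if k = i0 then (1 : ℝ) else 0) = 1 := by simp
      conv_rhs => rw [Finset.sum_sub_distrib, h6]
    rw [h5]
    refine Finset.sum_le_sum fun k _ => ?_
    by_cases hk : k = i0
    · rw [hk, h0]
      simp
    · rw [if_neg hk, sub_zero]
      have h6 : b k - g k ⬝ᵥ q k ≤ 1 := by
        rw [← sum_L hg hb (q k)]
        exact Finset.single_le_sum (f := fun j => b j - g j ⬝ᵥ q k)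
          (fun j _ => sub_nonneg.2 (hin _ (hq k) j)) (Finset.mem_univ k)
      have h7 := hin _ (hq i0) k
      have h8 : (b k - g k ⬝ᵥ q k) - (b k - g k ⬝ᵥ q i0) ≤ 1 := by linarith
      calc (1 - c k) * ((b k - g k ⬝ᵥ q k) - (b k - g k ⬝ᵥ q i0)) ≤ (1 - c k) * 1 :=
            mul_le_mul_of_nonneg_left h8 (sub_nonneg.2 (hc1 k))
        _ = 1 - c k := mul_one _
  have h9 := mul_le_mul_of_nonneg_left h1 hs.le
  rw [h2] at h9
  linarith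

/-- the budget: every far point is near its vertex -/
theorem far_ge (hg : ∑ j, g j = 0) (hb : ∑ j, b j = 1) {K : Set (Fin 3 → ℝ)}
    (hin : ∀ y ∈ K, ∀ k, g k ⬝ᵥ y ≤ b k) {s : ℝ} {q : Fin 4 → Fin 3 → ℝ} (hq : ∀ k, q k ∈ K)
    (hqs : 1 + s ≤ ∑ k, (b k - g k ⬝ᵥ q k)) (t : Fin 4) : s - 2 ≤ b t - g t ⬝ᵥ q t := by
  have h6 : ∀ k, b k - g k ⬝ᵥ q k ≤ 1 := fun k => by
    rw [← sum_L hg hb (q k)]
    exact Finset.single_le_sum (f := fun j => b j - g j ⬝ᵥ q k)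
      (fun j _ => sub_nonneg.2 (hin _ (hq k) j)) (Finset.mem_univ k)
  have h7 : ∑ k, (b k - g k ⬝ᵥ q k) ≤ ∑ k, (if k = t then b t - g t ⬝ᵥ q t else 1) :=
    Finset.sum_le_sum fun k _ => by
      by_cases hk : k = t
      · rw [if_pos hk, hk]
      · rw [if_neg hk]
        exact h6 k
  have h8 : ∑ k, (if k = t then b t - g t ⬝ᵥ q t else (1 : ℝ)) = (b t - g t ⬝ᵥ q t) + 3 := by
    fin_cases t <;> simp [Fin.sum_univ_four] <;> ring
  linarith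

end

end Pool.Agent.Helper20.FIVE
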